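import Pool.Agent.Helper79.KM.Defs
import Pool.Agent.Helper98.CK.Lift

/-!
The reduction of a space of matrices over the fraction field of a valuation ring.
-/

set_option autoImplicit false

open Matrix H77MT Pool.Agent.Helper98.CK

namespace Pool.Agent.Helper79.KM

variable {K : Type*} [Field K] {m : Type*} [Fintype m] [DecidableEq m]

/-- the reductions of the integral elements of a space of matrices -/
noncomputable def redL (O : ValuationSubring K) (L : Submodule K (Matrix m m K)) :
    Submodule (IsLocalRing.ResidueField O) (Matrix m m (IsLocalRing.ResidueField O)) where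
  carrier := {x | ∃ a : Matrix m m O, a.map (algebraMap O K) ∈ L ∧ a.map (IsLocalRing.residue O) = x}
  add_mem' := by
    rintro _ _ ⟨a, ha, rfl⟩ ⟨b, hb, rfl⟩
    refine ⟨a + b, ?_, ?_⟩
    · rw [Matrix.map_add _ (fun _ _ => map_add _ _ _)]
      exact L.add_mem ha hb
    · rw [Matrix.map_add _ (fun _ _ => map_add _ _ _)]
  zero_mem' := ⟨0, by rw [Matrix.map_zero _ (map_zero _)]; exact L.zero_mem, by rw [Matrix.map_zero _ (map_zero _)]⟩
  smul_mem' := by
    rintro c _ ⟨a, ha, rfl⟩
    obtain ⟨d, rfl⟩ := IsLocalRing.residue_surjective c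
    refine ⟨d • a, ?_, ?_⟩
    · have : (d • a).map (algebraMap O K) = (d : K) • a.map (algebraMap O K) := by
        ext i j
        simp [Matrix.map_apply]
      rw [this]
      exact L.smul_mem _ ha
    · ext i j
      simp [Matrix.map_apply]

end Pool.Agent.Helper79.KM
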