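import Pool.Agent.Helper79.KM.Defs
import Pool.Agent.Helper98.CK.Lift

/-!
A Lie algebra of matrices which is stable under conjugation by symplectic transvections and does not consist of scalars
contains the symplectic Lie algebra.
-/

set_option autoImplicit false

open Matrix H77MT Pool.Agent.Helper98.CK

namespace Pool.Agent.Helper79.KM

variable {F : Type*} [Field F] {m : Type*} [Fintype m] [DecidableEq m]

/-- A1 -/
theorem sp_lie {J : Matrix m m F} (h2 : (2 : F) ≠ 0) (hJ : IsUnit J.det) (hJa : ∀ v, B98 J v v = 0)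
    (V : Set (m → F)) (hadd : ∀ v ∈ V, ∀ w ∈ V, v + w ∈ V) (hspan : Submodule.span F V = ⊤)
    (L : Submodule F (Matrix m m F)) (hbr : ∀ x ∈ L, ∀ y ∈ L, x * y - y * x ∈ L)
    (hL : ∀ v ∈ V, ∀ a ∈ L, (1 + E98 J v v) * a * (1 - E98 J v v) ∈ L ∧ (1 - E98 J v v) * a * (1 + E98 J v v) ∈ L)
    (hns : ∃ c ∈ L, ∀ l : F, c ≠ l • (1 : Matrix m m F)) : ∀ v w, E98 J v w + E98 J w v ∈ L := by
  classical
  -- two elements of the algebra
  have k1 : ∀ v ∈ V, ∀ a ∈ L, B98 J (a *ᵥ v) v ≠ 0 → E98 J v v ∈ L := by
    intro v hv a ha hB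
    have h := L.add_mem (hL v hv a ha).1 (hL v hv a ha).2
    have e : (1 + E98 J v v) * a * (1 - E98 J v v) + (1 - E98 J v v) * a * (1 + E98 J v v)
        = (2 : F) • a - (2 * B98 J (a *ᵥ v) v : F) • E98 J v v := by
      have e1 : E98 J v v * a * E98 J v v = (B98 J (a *ᵥ v) v) • E98 J v v := by
        rw [mul_assoc, mul_E98, E_mul_E]
      rw [mul_smul, ← e1, two_smul, two_smul]
      noncomm_ring
    rw [e] at h
    have h3 := L.sub_mem (L.smul_mem (2 : F) ha) h
    rw [sub_sub_cancel] at h3
    have h4 := L.smul_mem ((2 * B98 J (a *ᵥ v) v)⁻¹) h3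
    rwa [smul_smul, inv_mul_cancel₀ (mul_ne_zero h2 hB), one_smul] at h4
  have k2 : ∀ v ∈ V, ∀ a ∈ L, E98 J v v * a - a * E98 J v v ∈ L := by
    intro v hv a ha
    have h := L.sub_mem (hL v hv a ha).1 (hL v hv a ha).2
    have e : (1 + E98 J v v) * a * (1 - E98 J v v) - (1 - E98 J v v) * a * (1 + E98 J v v)
        = (2 : F) • (E98 J v v * a - a * E98 J v v) := by
      rw [two_smul]
      noncomm_ring
    rw [e] at h
    have h4 := L.smul_mem ((2 : F)⁻¹) h
    rwa [smul_smul, inv_mul_cancel₀ h2, one_smul] at h4
  have kV : ∀ v : m → F, v ≠ 0 → ∃ t ∈ V, B98 J t v ≠ 0 := by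
    intro v hv
    by_contra hc
    push Not at hc
    apply hv
    apply B_nondeg hJ
    intro x
    have hx : x ∈ Submodule.span F V := by rw [hspan]; trivial
    induction hx using Submodule.span_induction with
    | mem x hx => exact hc x hx
    | zero => exact B_zero_left J v
    | add x y _ _ h1 h2 => rw [B_add_left, h1, h2, add_zero]
    | smul c x _ h1 => rw [B_smul_left, h1, mul_zero]
  have kV2 : ∀ v w : m → F, v ≠ 0 → w ≠ 0 → ∃ t ∈ V, B98 J t v ≠ 0 ∧ B98 J t w ≠ 0 := by
    intro v w hv hw
    obtain ⟨t1, ht1, h1⟩ := kV v hv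
    obtain ⟨t2, ht2, h2⟩ := kV w hw
    by_cases h3 : B98 J t1 w = 0
    · by_cases h4 : B98 J t2 v = 0
      · refine ⟨t1 + t2, hadd _ ht1 _ ht2, ?_, ?_⟩
        · rw [B_add_left, h4, add_zero]; exact h1
        · rw [B_add_left, h3, zero_add]; exact h2
      · exact ⟨t2, ht2, h4, h2⟩
    · exact ⟨t1, ht1, h1, h3⟩
  by_cases hcase : ∃ v ∈ V, ∃ a ∈ L, B98 J (a *ᵥ v) v ≠ 0
  · obtain ⟨v, hv, a, ha, hB⟩ := hcase
    have hE := k1 v hv a ha hB
    have hv0 : v ≠ 0 := by
      rintro rfl
      apply hB
      rw [mulVec_zero, B_zero_left]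
    -- from one vector to another one
    have k3 : ∀ v ∈ V, E98 J v v ∈ L → ∀ u ∈ V, B98 J u v ≠ 0 → E98 J u u ∈ L := by
      intro v hv hE u hu hB
      refine k1 u hu _ hE ?_
      rw [E98_mulVec, B_smul_left, B_alt hJa v u]
      exact mul_ne_zero hB (neg_ne_zero.2 hB)
    have k4 : ∀ u ∈ V, E98 J u u ∈ L := by
      intro u hu
      by_cases hu0 : u = 0
      · rw [hu0]
        have : E98 J (0 : m → F) 0 = 0 := by simp [E98]
        rw [this]
        exact L.zero_mem
      · obtain ⟨t, ht, h1, h2⟩ := kV2 v u hv0 hu0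
        refine k3 t ht (k3 v hv hE t ht h1) u hu ?_
        rw [B_alt hJa]
        exact neg_ne_zero.2 h2
    have k5 : ∀ u ∈ V, ∀ w ∈ V, E98 J u w + E98 J w u ∈ L := by
      intro u hu w hw
      have h3 := L.sub_mem (L.sub_mem (k4 (u + w) (hadd _ hu _ hw)) (k4 u hu)) (k4 w hw)
      have e : E98 J (u + w) (u + w) - E98 J u u - E98 J w w = E98 J u w + E98 J w u := by
        rw [E_add_left, E_add_right, E_add_right]
        abel
      rwa [e] at h3
    intro u w
    have hu : u ∈ Submodule.span F V := by rw [hspan]; trivial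
    induction hu using Submodule.span_induction with
    | mem u hu =>
      have hw : w ∈ Submodule.span F V := by rw [hspan]; trivial
      induction hw using Submodule.span_induction with
      | mem w hw => exact k5 u hu w hw
      | zero =>
        have : E98 J u 0 + E98 J 0 u = 0 := by simp [E98]
        rw [this]
        exact L.zero_mem
      | add x y _ _ h1 h2 =>
        have : E98 J u (x + y) + E98 J (x + y) u = (E98 J u x + E98 J x u) + (E98 J u y + E98 J y u) := by
          rw [E_add_left, E_add_right]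
          abel
        rw [this]
        exact L.add_mem h1 h2
      | smul c x _ h1 =>
        have : E98 J u (c • x) + E98 J (c • x) u = c • (E98 J u x + E98 J x u) := by
          rw [E_smul_left, E_smul_right, smul_add]
        rw [this]
        exact L.smul_mem c h1
    | zero =>
      have : E98 J 0 w + E98 J w 0 = 0 := by simp [E98]
      rw [this]
      exact L.zero_mem
    | add x y _ _ h1 h2 =>
      have : E98 J (x + y) w + E98 J w (x + y) = (E98 J x w + E98 J w x) + (E98 J y w + E98 J w y) := by
        rw [E_add_left, E_add_right]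
        abel
      rw [this]
      exact L.add_mem h1 h2
    | smul c x _ h1 =>
      have : E98 J (c • x) w + E98 J w (c • x) = c • (E98 J x w + E98 J w x) := by
        rw [E_smul_left, E_smul_right, smul_add]
      rw [this]
      exact L.smul_mem c h1
  · exfalso
    push Not at hcase
    -- all elements are self-adjoint
    have s1 : ∀ a ∈ L, ∀ x y : m → F, B98 J (a *ᵥ x) y = B98 J x (a *ᵥ y) := by
      intro a ha x y
      have hx : x ∈ Submodule.span F V := by rw [hspan]; trivial
      induction hx using Submodule.span_induction with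
      | mem x hx =>
        have hy : y ∈ Submodule.span F V := by rw [hspan]; trivial
        induction hy using Submodule.span_induction with
        | mem y hy =>
          have h := hcase (x + y) (hadd _ hx _ hy) a ha
          rw [mulVec_add, B_add_left, B_add_right, B_add_right, hcase x hx a ha, hcase y hy a ha] at h
          rw [B_alt hJa x]
          linear_combination h
        | zero => simp [B98]
        | add y z _ _ h1 h2 => rw [B_add_right, mulVec_add, B_add_right, h1, h2]
        | smul c y _ h1 => rw [B_smul_right, mulVec_smul, B_smul_right, h1]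
      | zero => simp [B98]
      | add x z _ _ h1 h2 => rw [B_add_left, mulVec_add, B_add_left, h1, h2]
      | smul c x _ h1 => rw [B_smul_left, mulVec_smul, B_smul_left, h1]
    have nd : ∀ y z : m → F, (∀ x, B98 J x y = B98 J x z) → y = z := by
      intro y z h
      rw [← sub_eq_zero]
      apply B_nondeg hJ
      intro x
      rw [B_sub_right, h, sub_self]
    have s2 : ∀ a ∈ L, ∀ b ∈ L, a * b = b * a := by
      intro a ha b hb
      have h : ∀ y : m → F, (a * b) *ᵥ y = (b * a) *ᵥ y := by
        intro y
        apply nd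
        intro x
        have h1 := s1 _ (hbr a ha b hb) x y
        rw [sub_mulVec, sub_mulVec, B_sub_left, B_sub_right] at h1
        have h3 : ∀ u v : m → F, B98 J ((a * b) *ᵥ u) v = B98 J u ((b * a) *ᵥ v) := by
          intro u v
          rw [← mulVec_mulVec, ← mulVec_mulVec, s1 a ha, s1 b hb]
        have h4 : ∀ u v : m → F, B98 J ((b * a) *ᵥ u) v = B98 J u ((a * b) *ᵥ v) := by
          intro u v
          rw [← mulVec_mulVec, ← mulVec_mulVec, s1 b hb, s1 a ha]
        rw [h3, h4] at h1
        have h5 : 2 * (B98 J x ((a * b) *ᵥ y) - B98 J x ((b * a) *ᵥ y)) = 0 := by linear_combination -h1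
        rcases mul_eq_zero.1 h5 with h6 | h6
        · exact absurd h6 h2
        · exact sub_eq_zero.1 h6
      exact Matrix.ext_of_mulVec_single fun i => h _
    have s3 : ∀ a ∈ L, ∀ v ∈ V, ∃ c : F, a *ᵥ v = c • v := by
      intro a ha v hv
      by_cases hv0 : v = 0
      · exact ⟨0, by rw [hv0]; simp⟩
      obtain ⟨x0, -, hx0⟩ := kV v hv0
      have hc := s2 a ha _ (k2 v hv a ha)
      have hc' : ∀ x, (2 * B98 J x (a *ᵥ v)) • (a *ᵥ v) = (B98 J x v) • (a *ᵥ (a *ᵥ v)) + (B98 J x (a *ᵥ (a *ᵥ v))) • v := by
        intro x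
        have h := congrArg (fun M => M *ᵥ x) hc
        simp only [← mulVec_mulVec, sub_mulVec, mulVec_sub, E98_mulVec, mulVec_smul] at h
        rw [s1 a ha x v, s1 a ha (a *ᵥ x) v, s1 a ha x (a *ᵥ v)] at h
        rw [mul_smul, two_smul]
        rw [sub_eq_sub_iff_add_eq_add] at h
        rw [h]
        abel
      by_cases hy : ∃ y, B98 J ((B98 J x0 v) • y - (B98 J y v) • x0) (a *ᵥ v) ≠ 0
      · obtain ⟨y, hy⟩ := hy
        have h := hc' ((B98 J x0 v) • y - (B98 J y v) • x0)
        have h0 : B98 J ((B98 J x0 v) • y - (B98 J y v) • x0) v = 0 := by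
          rw [B_sub_left, B_smul_left, B_smul_left]
          ring
        rw [h0, zero_smul, zero_add] at h
        have h4 := mul_ne_zero h2 hy
        refine ⟨(2 * B98 J ((B98 J x0 v) • y - (B98 J y v) • x0) (a *ᵥ v))⁻¹ *
          B98 J ((B98 J x0 v) • y - (B98 J y v) • x0) (a *ᵥ (a *ᵥ v)), ?_⟩
        rw [mul_smul, ← h, smul_smul, inv_mul_cancel₀ h4, one_smul]
      · push Not at hy
        refine ⟨(B98 J x0 v)⁻¹ * B98 J x0 (a *ᵥ v), ?_⟩
        apply nd
        intro y
        have h := hy y
        rw [B_sub_left, B_smul_left, B_smul_left] at h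
        rw [B_smul_right]
        field_simp
        linear_combination h
    obtain ⟨a, ha, hna⟩ := hns
    by_cases hV : ∃ v ∈ V, v ≠ 0
    · obtain ⟨v0, hv0, hne⟩ := hV
      obtain ⟨c, hc⟩ := s3 a ha v0 hv0
      have h5 : ∀ w ∈ V, a *ᵥ w = c • w := by
        intro w hw
        obtain ⟨d, hd⟩ := s3 a ha w hw
        obtain ⟨e, he⟩ := s3 a ha (v0 + w) (hadd _ hv0 _ hw)
        rw [mulVec_add, hc, hd, smul_add] at he
        by_cases hec : e = c
        · rw [hec] at he
          have := add_left_cancel he
          rw [hd, this]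
        · have h6 : (c - e) • v0 = (e - d) • w := by
            rw [sub_smul, sub_smul, sub_eq_sub_iff_add_eq_add, he]
            abel
          have h7 : c - e ≠ 0 := sub_ne_zero.2 (Ne.symm hec)
          have h8 : v0 = ((c - e)⁻¹ * (e - d)) • w := by
            rw [mul_smul, ← h6, smul_smul, inv_mul_cancel₀ h7, one_smul]
          have h9 : a *ᵥ v0 = d • v0 := by
            conv_lhs => rw [h8]
            rw [mulVec_smul, hd, smul_comm, ← h8]
          rw [hc] at h9
          have h10 : (c - d) • v0 = 0 := by rw [sub_smul, h9, sub_self]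
          rcases smul_eq_zero.1 h10 with h11 | h11
          · rw [hd, sub_eq_zero.1 h11]
          · exact absurd h11 hne
      apply hna c
      refine Matrix.ext_of_mulVec_single fun i => ?_
      have h6 : ∀ x : m → F, a *ᵥ x = c • x := by
        intro x
        have hx : x ∈ Submodule.span F V := by rw [hspan]; trivial
        induction hx using Submodule.span_induction with
        | mem x hx => exact h5 x hx
        | zero => simp
        | add x y _ _ h1 h2 => rw [mulVec_add, h1, h2, smul_add]
        | smul k x _ h1 => rw [mulVec_smul, h1, smul_comm]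
      rw [h6, smul_mulVec, one_mulVec]
    · push Not at hV
      have hsub : ∀ x : m → F, x = 0 := by
        intro x
        have hx : x ∈ Submodule.span F V := by rw [hspan]; trivial
        induction hx using Submodule.span_induction with
        | mem x hx => exact hV x hx
        | zero => rfl
        | add x y _ _ h1 h2 => rw [h1, h2, add_zero]
        | smul k x _ h1 => rw [h1, smul_zero]
      apply hna 0
      refine Matrix.ext_of_mulVec_single fun i => ?_
      rw [hsub (a *ᵥ Pi.single i 1), hsub (_ *ᵥ Pi.single i 1)]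

end Pool.Agent.Helper79.KM
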