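import Pool.Agent.Helper98.KM.A1
import Pool.Agent.Helper98.KM.RedL
import Pool.Agent.Helper3.KM.SpMax

/-!
A Lie algebra of matrices which is stable under conjugation by integral matrices that reduce to symplectic transvections:
it contains all matrices of trace zero, or its reduction consists of similitudes.
-/

set_option autoImplicit false

open Matrix H77MT Pool.Agent.Helper98.CK

namespace Pool.Agent.Helper79.KM

section scalar
variable {F : Type*} [Field F] {m : Type*} [Fintype m] [DecidableEq m]

/-- a matrix which commutes with `x ↦ B (x, v) v` for all `v` in a spanning set closed under addition is a scalar -/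
theorem scalar_of_comm98 {J : Matrix m m F} (hJ : IsUnit J.det)
    (V : Set (m → F)) (hadd : ∀ v ∈ V, ∀ w ∈ V, v + w ∈ V) (hspan : Submodule.span F V = ⊤)
    (a : Matrix m m F) (ha : ∀ v ∈ V, E98 J v v * a = a * E98 J v v) : ∃ c : F, a = c • 1 := by
  have s3 : ∀ v ∈ V, ∃ c : F, a *ᵥ v = c • v := by
    intro v hv
    by_cases hv0 : v = 0
    · exact ⟨0, by rw [hv0]; simp⟩
    have hy : ∃ y, B98 J y v ≠ 0 := by
      by_contra hc
      push Not at hc
      exact hv0 (B_nondeg hJ hc)
    obtain ⟨y, hy⟩ := hy
    have h := congrArg (fun M => M *ᵥ y) (ha v hv)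
    simp only [← mulVec_mulVec, E98_mulVec, mulVec_smul] at h
    refine ⟨(B98 J y v)⁻¹ * B98 J (a *ᵥ y) v, ?_⟩
    rw [mul_smul, h, smul_smul, inv_mul_cancel₀ hy, one_smul]
  by_cases hV : ∃ v ∈ V, v ≠ 0
  · obtain ⟨v0, hv0, hne⟩ := hV
    obtain ⟨c, hc⟩ := s3 v0 hv0
    have h5 : ∀ w ∈ V, a *ᵥ w = c • w := by
      intro w hw
      obtain ⟨d, hd⟩ := s3 w hw
      obtain ⟨e, he⟩ := s3 (v0 + w) (hadd _ hv0 _ hw)
      rw [mulVec_add, hc, hd, smul_add] at he
      by_cases hec : e = c
      · rw [hec] at he
        have := add_left_cancel he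
        rw [hd, this]
      · have h6 : (c - e) • v0 = (e - d) • w := by
          rw [sub_smul, sub_smul, sub_eq_sub_iff_add_eq_add, he]
          abel
        have h7 : c - e ≠ 0 := sub_ne_zero.2 (Ne.symm hec)
        have h8 : v0 = ((c - e)⁻¹ * (e - d)) • w := by
          rw [mul_smul, ← h6, smul_smul, inv_mul_cancel₀ h7, one_smul]
        have h9 : a *ᵥ v0 = d • v0 := by
          conv_lhs => rw [h8]
          rw [mulVec_smul, hd, smul_comm, ← h8]
        rw [hc] at h9
        have h10 : (c - d) • v0 = 0 := by rw [sub_smul, h9, sub_self]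
        rcases smul_eq_zero.1 h10 with h11 | h11
        · rw [hd, sub_eq_zero.1 h11]
        · exact absurd h11 hne
    refine ⟨c, ?_⟩
    refine Matrix.ext_of_mulVec_single fun i => ?_
    have h6 : ∀ x : m → F, a *ᵥ x = c • x := by
      intro x
      have hx : x ∈ Submodule.span F V := by rw [hspan]; trivial
      induction hx using Submodule.span_induction with
      | mem x hx => exact h5 x hx
      | zero => simp
      | add x y _ _ h1 h2 => rw [mulVec_add, h1, h2, smul_add]
      | smul k x _ h1 => rw [mulVec_smul, h1, smul_comm]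
    rw [h6, smul_mulVec, one_mulVec]
  · push Not at hV
    have hsub : ∀ x : m → F, x = 0 := by
      intro x
      have hx : x ∈ Submodule.span F V := by rw [hspan]; trivial
      induction hx using Submodule.span_induction with
      | mem x hx => exact hV x hx
      | zero => rfl
      | add x y _ _ h1 h2 => rw [h1, h2, add_zero]
      | smul k x _ h1 => rw [h1, smul_zero]
    refine ⟨0, ?_⟩
    refine Matrix.ext_of_mulVec_single fun i => ?_
    rw [hsub (a *ᵥ Pi.single i 1), hsub (_ *ᵥ Pi.single i 1)]

end scalar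

section lift
variable {K : Type*} [Field K] {m : Type*} [Fintype m] [DecidableEq m]

/-- lifts of the matrix units form a basis -/
theorem span_of_red98 (O : ValuationSubring K) (t : m × m → Matrix m m O)
    (ht : ∀ p, (t p).map (IsLocalRing.residue O) = Matrix.single p.1 p.2 1) (x : Matrix m m K) :
    ∃ c : m × m → K, x = ∑ p, c p • (t p).map (algebraMap O K) := by
  let T : Matrix (m × m) (m × m) O := Matrix.of fun p q => t p q.1 q.2
  have hT : T.map (IsLocalRing.residue O) = 1 := by
    ext ⟨i, j⟩ ⟨k, l⟩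
    have := congrFun (congrFun (ht (i, j)) k) l
    simp only [Matrix.map_apply] at this
    simp only [T, Matrix.map_apply, Matrix.of_apply, this, Matrix.single_apply, Matrix.one_apply, Prod.mk.injEq]
  have hdet : IsUnit T.det := by
    rw [← isUnit_map_iff (IsLocalRing.residue O), RingHom.map_det, RingHom.mapMatrix_apply, hT, Matrix.det_one]
    exact isUnit_one
  have hD : IsUnit (T.map (algebraMap O K)).det := by
    rw [← RingHom.mapMatrix_apply, ← RingHom.map_det]
    exact hdet.map _
  refine ⟨fun p => ∑ q, x q.1 q.2 * (T.map (algebraMap O K))⁻¹ q p, ?_⟩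
  ext k l
  rw [Matrix.sum_apply]
  simp only [Matrix.smul_apply, Matrix.map_apply, smul_eq_mul, Finset.sum_mul]
  rw [Finset.sum_comm]
  have h3 : ∀ q : m × m, ∑ p, x q.1 q.2 * (T.map (algebraMap O K))⁻¹ q p * (algebraMap O K) (t p k l)
      = if q = (k, l) then x q.1 q.2 else 0 := by
    intro q
    have h2 := congrFun (congrFun (Matrix.nonsing_inv_mul _ hD) q) (k, l)
    rw [Matrix.mul_apply, Matrix.one_apply] at h2
    simp only [T, Matrix.map_apply, Matrix.of_apply] at h2
    simp only [mul_assoc]
    rw [← Finset.mul_sum, h2]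
    split_ifs <;> simp
  rw [Finset.sum_congr rfl fun q _ => h3 q]
  simp

theorem lift_lie98 (O : ValuationSubring K) (h2 : (2 : IsLocalRing.ResidueField O) ≠ 0)
    {J : Matrix m m (IsLocalRing.ResidueField O)} (hJ : IsUnit J.det) (hJa : ∀ v, B98 J v v = 0)
    (V : Set (m → IsLocalRing.ResidueField O)) (hadd : ∀ v ∈ V, ∀ w ∈ V, v + w ∈ V)
    (hspan : Submodule.span (IsLocalRing.ResidueField O) V = ⊤)
    (L : Submodule K (Matrix m m K)) (hbr : ∀ x ∈ L, ∀ y ∈ L, x * y - y * x ∈ L)
    (hL : ∀ v ∈ V, ∃ g h : Matrix m m O, g * h = 1 ∧ g.map (IsLocalRing.residue O) = 1 + E98 J v v ∧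
      ∀ a ∈ L, g.map (algebraMap O K) * a * h.map (algebraMap O K) ∈ L ∧
        h.map (algebraMap O K) * a * g.map (algebraMap O K) ∈ L)
    (hns : ∃ c ∈ L, ∀ l : K, c ≠ l • (1 : Matrix m m K))
    (hmax : (∀ x ∈ redL O L, ∀ y ∈ redL O L, x * y - y * x ∈ redL O L) →
      (∀ v w, E98 J v w + E98 J w v ∈ redL O L) →
      (∀ x : Matrix m m (IsLocalRing.ResidueField O), x.trace = 0 → x ∈ redL O L) ∨
        ∀ c ∈ redL O L, ∃ l : IsLocalRing.ResidueField O, cᵀ * J + J * c = l • J) :
    (∀ x : Matrix m m K, x.trace = 0 → x ∈ L) ∨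
      (∀ v w, E98 J v w + E98 J w v ∈ redL O L) ∧ ∀ c ∈ redL O L, ∃ l : IsLocalRing.ResidueField O, cᵀ * J + J * c = l • J := by
  classical
  have hbr' : ∀ x ∈ redL O L, ∀ y ∈ redL O L, x * y - y * x ∈ redL O L := by
    rintro _ ⟨a, ha, rfl⟩ _ ⟨b, hb, rfl⟩
    refine ⟨a * b - b * a, ?_, ?_⟩
    · rw [Matrix.map_sub _ (fun _ _ => map_sub _ _ _), Matrix.map_mul, Matrix.map_mul]
      exact hbr _ ha _ hb
    · rw [Matrix.map_sub _ (fun _ _ => map_sub _ _ _), Matrix.map_mul, Matrix.map_mul]
  have hinv : ∀ v ∈ V, ∀ g h : Matrix m m O, g * h = 1 → g.map (IsLocalRing.residue O) = 1 + E98 J v v →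
      h.map (IsLocalRing.residue O) = 1 - E98 J v v := by
    intro v hv g h hgh hg
    have e1 : (1 - E98 J v v) * (1 + E98 J v v) = 1 := by
      have : E98 J v v * E98 J v v = 0 := by rw [E_mul_E, hJa, zero_smul]
      calc (1 - E98 J v v) * (1 + E98 J v v) = 1 - E98 J v v * E98 J v v := by noncomm_ring
        _ = 1 := by rw [this, sub_zero]
    have h3 : g.map (IsLocalRing.residue O) * h.map (IsLocalRing.residue O) = 1 := by
      rw [← Matrix.map_mul, hgh]
      simp
    rw [hg] at h3
    calc h.map (IsLocalRing.residue O) = ((1 - E98 J v v) * (1 + E98 J v v)) * h.map (IsLocalRing.residue O) := by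
          rw [e1, one_mul]
      _ = 1 - E98 J v v := by rw [mul_assoc, h3, mul_one]
  have hst' : ∀ v ∈ V, ∀ a ∈ redL O L, (1 + E98 J v v) * a * (1 - E98 J v v) ∈ redL O L ∧
      (1 - E98 J v v) * a * (1 + E98 J v v) ∈ redL O L := by
    rintro v hv _ ⟨a, ha, rfl⟩
    obtain ⟨g, h, hgh, hg, hst⟩ := hL v hv
    have hh := hinv v hv g h hgh hg
    constructor
    · refine ⟨g * a * h, ?_, ?_⟩
      · rw [Matrix.map_mul, Matrix.map_mul]
        exact (hst _ ha).1
      · rw [Matrix.map_mul, Matrix.map_mul, hg, hh]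
    · refine ⟨h * a * g, ?_, ?_⟩
      · rw [Matrix.map_mul, Matrix.map_mul]
        exact (hst _ ha).2
      · rw [Matrix.map_mul, Matrix.map_mul, hg, hh]
  have hns' : ∃ c ∈ redL O L, ∀ l : IsLocalRing.ResidueField O, c ≠ l • (1 : Matrix m m (IsLocalRing.ResidueField O)) := by
    obtain ⟨c, hc, hcs⟩ := hns
    by_cases hm : Nonempty m
    · obtain ⟨i0⟩ := hm
      set b : Matrix m m K := c - (c i0 i0) • 1 with hb
      have hb0 : b ≠ 0 := fun h0 => hcs (c i0 i0) (sub_eq_zero.1 h0)
      have hbi : b i0 i0 = 0 := by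
        rw [hb, Matrix.sub_apply, Matrix.smul_apply, Matrix.one_apply_eq, smul_eq_mul, mul_one, sub_self]
      obtain ⟨d, hd0, hdO, i, j, hij⟩ := exists_max98 O b hb0
      let x : Matrix m m O := Matrix.of fun i j => ⟨d⁻¹ * b i j, hdO i j⟩
      have hx : x.map (algebraMap O K) = d⁻¹ • b := by
        ext k l
        rfl
      have hxns : ¬ ∃ l : IsLocalRing.ResidueField O, x.map (IsLocalRing.residue O) = l • 1 := by
        rintro ⟨l, hl⟩
        have hl0 : l = 0 := by
          have h4 := congrFun (congrFun hl i0) i0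
          rw [Matrix.smul_apply, Matrix.one_apply_eq, smul_eq_mul, mul_one, Matrix.map_apply] at h4
          rw [← h4]
          have h5 : x i0 i0 = 0 := by
            apply Subtype.ext
            show d⁻¹ * b i0 i0 = 0
            rw [hbi, mul_zero]
          rw [h5, map_zero]
        have h6 := congrFun (congrFun hl i) j
        have h7 : x i j = 1 := by
          apply Subtype.ext
          exact hij
        rw [hl0, zero_smul, Matrix.zero_apply, Matrix.map_apply, h7, map_one] at h6
        exact one_ne_zero h6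
      have hv : ∃ v ∈ V, E98 J v v * x.map (IsLocalRing.residue O) - x.map (IsLocalRing.residue O) * E98 J v v ≠ 0 := by
        by_contra hcon
        push Not at hcon
        exact hxns (scalar_of_comm98 hJ V hadd hspan _ fun v hv => sub_eq_zero.1 (hcon v hv))
      obtain ⟨v, hv, hne⟩ := hv
      obtain ⟨g, h, hgh, hg, hst⟩ := hL v hv
      have hh := hinv v hv g h hgh hg
      refine ⟨(g * x * h - x).map (IsLocalRing.residue O), ⟨g * x * h - x, ?_, rfl⟩, ?_⟩
      · rw [Matrix.map_sub _ (fun _ _ => map_sub _ _ _), Matrix.map_mul, Matrix.map_mul, hx]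
        have h8 : g.map (algebraMap O K) * (d⁻¹ • b) * h.map (algebraMap O K) - d⁻¹ • b
            = d⁻¹ • (g.map (algebraMap O K) * c * h.map (algebraMap O K) - c) := by
          have h9 : g.map (algebraMap O K) * h.map (algebraMap O K) = 1 := by
            rw [← Matrix.map_mul, hgh]
            exact Matrix.map_one _ (map_zero _) (map_one _)
          rw [Matrix.mul_smul, Matrix.smul_mul, ← smul_sub, hb]
          congr 1
          rw [Matrix.mul_sub, Matrix.sub_mul, Matrix.mul_smul, Matrix.smul_mul, Matrix.mul_one, h9]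
          abel
        rw [h8]
        exact L.smul_mem _ (L.sub_mem (hst c hc).1 hc)
      · intro l hl
        rw [Matrix.map_sub _ (fun _ _ => map_sub _ _ _), Matrix.map_mul, Matrix.map_mul, hg, hh] at hl
        set X := x.map (IsLocalRing.residue O) with hX
        set E := E98 J v v with hE
        have hEE : E * E = 0 := by rw [hE, E_mul_E, hJa, zero_smul]
        have hEX : E * X * E = (B98 J (X *ᵥ v) v) • E := by
          rw [mul_assoc, hE, mul_E98, E_mul_E]
        -- `[E, X] = l (1 + E)`
        have h10 : E * X - X * E = l • (1 + E) := by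
          have h11 := congrArg (fun M => M * (1 + E)) hl
          have h12 : ((1 + E) * X * (1 - E) - X) * (1 + E) = (E * X - X * E) - (1 + E) * X * (E * E) := by noncomm_ring
          have h13 : (l • (1 : Matrix m m (IsLocalRing.ResidueField O))) * (1 + E) = l • (1 + E) := by
            rw [Matrix.smul_mul, Matrix.one_mul]
          rw [h12, h13, hEE, Matrix.mul_zero, sub_zero] at h11
          exact h11
        have h14 : E * (E * X - X * E) = -(E * X * E) := by
          rw [Matrix.mul_sub, ← Matrix.mul_assoc, hEE, Matrix.zero_mul, zero_sub, ← Matrix.mul_assoc]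
        have h15 : (E * X - X * E) * E = E * X * E := by
          rw [Matrix.sub_mul, Matrix.mul_assoc X, hEE, Matrix.mul_zero, sub_zero]
        have h16 : E * (l • (1 + E)) = l • E := by
          rw [Matrix.mul_smul, Matrix.mul_add, Matrix.mul_one, hEE, add_zero]
        have h17 : (l • (1 + E)) * E = l • E := by
          rw [Matrix.smul_mul, Matrix.add_mul, Matrix.one_mul, hEE, add_zero]
        rw [h10, h16] at h14
        rw [h10, h17] at h15
        have h18 : (2 * l) • E = 0 := by
          rw [two_mul, add_smul]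
          nth_rewrite 1 [h15]
          rw [h14]
          abel
        rcases smul_eq_zero.1 h18 with h19 | h19
        · rcases mul_eq_zero.1 h19 with h20 | h20
          · exact h2 h20
          · apply hne
            rw [h10, h20, zero_smul]
        · apply hne
          rw [h19, Matrix.zero_mul, Matrix.mul_zero, sub_zero]
    · have : IsEmpty m := not_nonempty_iff.1 hm
      exact absurd (Subsingleton.elim c ((0 : K) • (1 : Matrix m m K))) (hcs 0)
  have hS := sp_lie h2 hJ hJa V hadd hspan (redL O L) hbr' hst' hns'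
  rcases hmax hbr' hS with hfull | hsim
  swap
  · exact Or.inr ⟨hS, hsim⟩
  left
  intro x hx
  by_cases hm : Nonempty m
  swap
  · have : IsEmpty m := not_nonempty_iff.1 hm
    rw [Subsingleton.elim x 0]
    exact L.zero_mem
  obtain ⟨i0⟩ := hm
  -- lifts of the matrix units
  have hX : ∀ p : m × m, p.1 ≠ p.2 → ∃ a : Matrix m m O, a.map (algebraMap O K) ∈ L ∧
      a.map (IsLocalRing.residue O) = Matrix.single p.1 p.2 1 := by
    intro p hp
    have : Matrix.single p.1 p.2 (1 : IsLocalRing.ResidueField O) ∈ redL O L := by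
      apply hfull
      rw [Matrix.trace_single_eq_of_ne _ _ _ hp]
    exact this
  choose! X hXL hXr using hX
  -- trace zero lifts in `L`
  have hY : ∀ p : m × m, ∃ a : Matrix m m O, a.map (algebraMap O K) ∈ L ∧ (a.map (algebraMap O K)).trace = 0 ∧
      a.map (IsLocalRing.residue O) = Matrix.single p.1 p.2 1 - (if p.1 = p.2 then Matrix.single i0 i0 1 else 0) := by
    rintro ⟨i, j⟩
    by_cases hij : i = j
    · subst hij
      by_cases hi : i = i0
      · subst hi
        refine ⟨0, ?_, ?_, ?_⟩
        · rw [Matrix.map_zero _ (map_zero _)]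
          exact L.zero_mem
        · rw [Matrix.map_zero _ (map_zero _), Matrix.trace_zero]
        · rw [Matrix.map_zero _ (map_zero _)]
          simp
      · refine ⟨X (i, i0) * X (i0, i) - X (i0, i) * X (i, i0), ?_, ?_, ?_⟩
        · rw [Matrix.map_sub _ (fun _ _ => map_sub _ _ _), Matrix.map_mul, Matrix.map_mul]
          exact hbr _ (hXL (i, i0) hi) _ (hXL (i0, i) (Ne.symm hi))
        · rw [Matrix.map_sub _ (fun _ _ => map_sub _ _ _), Matrix.map_mul, Matrix.map_mul, Matrix.trace_sub,
            Matrix.trace_mul_comm, sub_self]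
        · rw [Matrix.map_sub _ (fun _ _ => map_sub _ _ _), Matrix.map_mul, Matrix.map_mul, hXr (i, i0) hi,
            hXr (i0, i) (Ne.symm hi)]
          simp
    · -- `[[X_ij, X_ji], X_ij] / 2`
      have h2u : IsUnit (2 : O) := by
        by_contra hcon
        apply h2
        have h3 : IsLocalRing.residue O (2 : O) = 0 := by
          rw [IsLocalRing.residue_eq_zero_iff]
          exact (IsLocalRing.mem_maximalIdeal _).2 hcon
        rw [map_ofNat] at h3
        exact h3
      obtain ⟨u, hu⟩ := h2u
      let H : Matrix m m O := X (i, j) * X (j, i) - X (j, i) * X (i, j)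
      have hHL : H.map (algebraMap O K) ∈ L := by
        rw [Matrix.map_sub _ (fun _ _ => map_sub _ _ _), Matrix.map_mul, Matrix.map_mul]
        exact hbr _ (hXL (i, j) hij) _ (hXL (j, i) (Ne.symm hij))
      have hHr : H.map (IsLocalRing.residue O) = Matrix.single i i 1 - Matrix.single j j 1 := by
        rw [Matrix.map_sub _ (fun _ _ => map_sub _ _ _), Matrix.map_mul, Matrix.map_mul, hXr (i, j) hij,
            hXr (j, i) (Ne.symm hij)]
        simp
      refine ⟨(↑u⁻¹ : O) • (H * X (i, j) - X (i, j) * H), ?_, ?_, ?_⟩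
      · have h4 : ((↑u⁻¹ : O) • (H * X (i, j) - X (i, j) * H)).map (algebraMap O K)
            = ((↑u⁻¹ : O) : K) • (H.map (algebraMap O K) * (X (i, j)).map (algebraMap O K) -
              (X (i, j)).map (algebraMap O K) * H.map (algebraMap O K)) := by
          rw [← Matrix.map_mul, ← Matrix.map_mul, ← Matrix.map_sub _ (fun _ _ => map_sub _ _ _)]
          ext k l
          rw [Matrix.map_apply, Matrix.smul_apply, Matrix.smul_apply, Matrix.map_apply, smul_eq_mul, smul_eq_mul, map_mul]
          rfl
        rw [h4]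
        exact L.smul_mem _ (hbr _ hHL _ (hXL (i, j) hij))
      · have h4 : ((↑u⁻¹ : O) • (H * X (i, j) - X (i, j) * H)).map (algebraMap O K)
            = ((↑u⁻¹ : O) : K) • (H.map (algebraMap O K) * (X (i, j)).map (algebraMap O K) -
              (X (i, j)).map (algebraMap O K) * H.map (algebraMap O K)) := by
          rw [← Matrix.map_mul, ← Matrix.map_mul, ← Matrix.map_sub _ (fun _ _ => map_sub _ _ _)]
          ext k l
          rw [Matrix.map_apply, Matrix.smul_apply, Matrix.smul_apply, Matrix.map_apply, smul_eq_mul, smul_eq_mul, map_mul]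
          rfl
        rw [h4, Matrix.trace_smul, Matrix.trace_sub, Matrix.trace_mul_comm, sub_self, smul_zero]
      · have h4 : ((↑u⁻¹ : O) • (H * X (i, j) - X (i, j) * H)).map (IsLocalRing.residue O)
            = (IsLocalRing.residue O (↑u⁻¹ : O)) • (H.map (IsLocalRing.residue O) * (X (i, j)).map (IsLocalRing.residue O) -
              (X (i, j)).map (IsLocalRing.residue O) * H.map (IsLocalRing.residue O)) := by
          rw [← Matrix.map_mul, ← Matrix.map_mul, ← Matrix.map_sub _ (fun _ _ => map_sub _ _ _)]
          ext k l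
          rw [Matrix.map_apply, Matrix.smul_apply, Matrix.smul_apply, Matrix.map_apply, smul_eq_mul, smul_eq_mul, map_mul]
        rw [h4, hHr, hXr (i, j) hij]
        have h5 : (Matrix.single i i (1 : IsLocalRing.ResidueField O) - Matrix.single j j 1) * Matrix.single i j 1 -
            Matrix.single i j 1 * (Matrix.single i i 1 - Matrix.single j j 1) = (2 : IsLocalRing.ResidueField O) • Matrix.single i j 1 := by
          rw [Matrix.sub_mul, Matrix.mul_sub, Matrix.single_mul_single_same, Matrix.single_mul_single_of_ne _ _ _ _ (Ne.symm hij),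
            Matrix.single_mul_single_of_ne _ _ _ _ (Ne.symm hij), Matrix.single_mul_single_same, two_smul]
          simp
        rw [h5, smul_smul, if_neg hij, sub_zero]
        have h6 : (IsLocalRing.residue O (↑u⁻¹ : O)) * 2 = 1 := by
          have h7 : (↑u⁻¹ : O) * 2 = 1 := by rw [← hu]; exact u.inv_mul
          have h8 := congrArg (IsLocalRing.residue O) h7
          rwa [map_mul, map_one, map_ofNat] at h8
        rw [h6, one_smul]
  choose Y hYL hYt hYr using hY
  let t : m × m → Matrix m m O := fun p => Y p + (if p.1 = p.2 then Matrix.single i0 i0 1 else 0)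
  have ht : ∀ p, (t p).map (IsLocalRing.residue O) = Matrix.single p.1 p.2 1 := by
    intro p
    show (Y p + (if p.1 = p.2 then Matrix.single i0 i0 1 else 0)).map (IsLocalRing.residue O) = _
    rw [Matrix.map_add _ (fun _ _ => map_add _ _ _), hYr p]
    split_ifs
    · rw [Matrix.map_single, map_one]
      abel
    · rw [Matrix.map_zero _ (map_zero _)]
      abel
  obtain ⟨c, hc⟩ := span_of_red98 O t ht x
  have ht' : ∀ p, (t p).map (algebraMap O K) = (Y p).map (algebraMap O K) +
      (if p.1 = p.2 then Matrix.single i0 i0 1 else 0) := by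
    intro p
    show (Y p + (if p.1 = p.2 then Matrix.single i0 i0 1 else 0)).map (algebraMap O K) = _
    rw [Matrix.map_add _ (fun _ _ => map_add _ _ _)]
    split_ifs
    · rw [Matrix.map_single, map_one]
    · rw [Matrix.map_zero _ (map_zero _)]
  have hx1 : x = ∑ p, c p • (Y p).map (algebraMap O K) +
      (∑ p : m × m, if p.1 = p.2 then c p else 0) • Matrix.single i0 i0 (1 : K) := by
    rw [hc, Finset.sum_smul, ← Finset.sum_add_distrib]
    refine Finset.sum_congr rfl fun p _ => ?_
    rw [ht' p, smul_add]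
    split_ifs
    · rfl
    · rw [zero_smul, smul_zero]
  have hc0 : (∑ p : m × m, if p.1 = p.2 then c p else 0) = 0 := by
    have h5 := congrArg Matrix.trace hx1
    rw [hx, Matrix.trace_add, Matrix.trace_sum, Matrix.trace_smul, Matrix.trace_single_eq_same, smul_eq_mul, mul_one] at h5
    rw [Finset.sum_eq_zero (fun p _ => by rw [Matrix.trace_smul, hYt p, smul_zero]), zero_add] at h5
    exact h5.symm
  rw [hx1, hc0, zero_smul, add_zero]
  exact L.sum_mem fun p _ => L.smul_mem _ (hYL p)

/-- A3 -/
theorem lift_lie (O : ValuationSubring K) (h2 : (2 : IsLocalRing.ResidueField O) ≠ 0)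
    {J : Matrix m m (IsLocalRing.ResidueField O)} (hJ : IsUnit J.det) (hJa : ∀ v, B98 J v v = 0)
    (V : Set (m → IsLocalRing.ResidueField O)) (hadd : ∀ v ∈ V, ∀ w ∈ V, v + w ∈ V)
    (hspan : Submodule.span (IsLocalRing.ResidueField O) V = ⊤)
    (L : Submodule K (Matrix m m K)) (hbr : ∀ x ∈ L, ∀ y ∈ L, x * y - y * x ∈ L)
    (hL : ∀ v ∈ V, ∃ g h : Matrix m m O, g * h = 1 ∧ g.map (IsLocalRing.residue O) = 1 + E98 J v v ∧
      ∀ a ∈ L, g.map (algebraMap O K) * a * h.map (algebraMap O K) ∈ L ∧
        h.map (algebraMap O K) * a * g.map (algebraMap O K) ∈ L)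
    (hns : ∃ c ∈ L, ∀ l : K, c ≠ l • (1 : Matrix m m K)) :
    (∀ x : Matrix m m K, x.trace = 0 → x ∈ L) ∨
      (∀ v w, E98 J v w + E98 J w v ∈ redL O L) ∧ ∀ c ∈ redL O L, ∃ l : IsLocalRing.ResidueField O, cᵀ * J + J * c = l • J :=
  lift_lie98 O h2 hJ hJa V hadd hspan L hbr hL hns fun hbr' hS =>
    Pool.Agent.Helper3.KM.sp_max h2 hJ hJa (redL O L) hbr' hS

end lift

end Pool.Agent.Helper79.KM
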