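import Pool.Agent.Helper79.KM.Defs

/-!
The blocks of the elements of the Zariski closure of a set of block diagonal matrices.
-/

set_option autoImplicit false

open Matrix H77MT

namespace Pool.Agent.Helper79.KM

variable {K : Type} [Field K] {Γ X : Type} [Group Γ] [DecidableEq X] [Fintype X] {g : ℕ}

/-- B7 -/
theorem zcl_block (ρ : Rep Γ X g K) (D : Subgroup Γ) {M : X → Matrix (Ix g) (Ix g) K}
    (h : blockDiagonal M ∈ zcl (img ρ D)) (x : X) :
    M x ∈ zcl {s | ∃ γ ∈ D, s = (ρ x γ : Matrix (Ix g) (Ix g) K)} := by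
  intro f hf
  have hev : ∀ N : X → Matrix (Ix g) (Ix g) K,
      ev (blockDiagonal N) (MvPolynomial.rename (fun p : Ix g × Ix g => ((p.1, x), (p.2, x))) f) = ev (N x) f := by
    intro N
    unfold ev
    rw [MvPolynomial.aeval_rename]
    congr 2
    funext p
    simp [Matrix.blockDiagonal_apply]
  rw [← hev M]
  refine h _ ?_
  rintro _ ⟨γ, hγ, rfl⟩
  unfold mat
  rw [hev]
  exact hf _ ⟨γ, hγ, rfl⟩

end Pool.Agent.Helper79.KM
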